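import Mathlib

set_option autoImplicit false

namespace H15.War

open Finset

/-- number of non-multiples of `p` in a multiset is the sum of the `k`-th powers mod `p` -/
lemma sum_pow_mod (p k : ℕ) (hp : p.Prime) (hk : 1 ≤ k) (hd : (p - 1) ∣ k) (X : Multiset ℕ) :
    (X.map (fun x => x ^ k)).sum + Multiset.card (X.filter (fun x => p ∣ x)) ≡
      Multiset.card X [MOD p] := by
  have : Fact p.Prime := Fact.mk hp
  induction X using Multiset.induction_on with
  | empty => simp; rfl
  | cons a X ih =>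
    rw [Multiset.map_cons, Multiset.sum_cons, Multiset.card_cons]
    by_cases ha : p ∣ a
    · rw [Multiset.filter_cons_of_pos _ ha, Multiset.card_cons]
      have h1 : a ^ k ≡ 0 [MOD p] :=
        (Nat.modEq_zero_iff_dvd).2 (dvd_pow ha (by omega))
      have := (h1.add ih).add_right 1
      simp only [zero_add] at this
      refine Nat.ModEq.trans ?_ this
      have : a ^ k + (Multiset.map (fun x => x ^ k) X).sum +
          (Multiset.card (Multiset.filter (fun x => p ∣ x) X) + 1) =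
          a ^ k + ((Multiset.map (fun x => x ^ k) X).sum +
          Multiset.card (Multiset.filter (fun x => p ∣ x) X)) + 1 := by ring
      rw [this]
    · rw [Multiset.filter_cons_of_neg _ ha]
      have h1 : a ^ k ≡ 1 [MOD p] := by
        obtain ⟨m, rfl⟩ := hd
        rw [← ZMod.natCast_eq_natCast_iff]
        push_cast
        rw [pow_mul, ZMod.pow_card_sub_one_eq_one, one_pow]
        rwa [Ne, ZMod.natCast_eq_zero_iff]
      have := h1.add ih
      refine Nat.ModEq.trans ?_ (this.trans (by rw [add_comm]))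
      have : a ^ k + (Multiset.map (fun x => x ^ k) X).sum +
          Multiset.card (Multiset.filter (fun x => p ∣ x) X) =
          a ^ k + ((Multiset.map (fun x => x ^ k) X).sum +
          Multiset.card (Multiset.filter (fun x => p ∣ x) X)) := by ring
      rw [this]

/-- the parametrising map -/
def F (k p : ℕ) (A B : Multiset ℕ) : ℕ :=
  (A.map (fun a => (p * a) ^ k)).sum + (B.map (fun b => b ^ k)).sum

/-- representable numbers -/
def Rep (k n : ℕ) : Prop :=
  ∃ s ≤ 2 * k + 1, ∃ x : Fin s → ℕ, (∀ i, 0 < x i) ∧ ∑ i, x i ^ k = n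

lemma exists_multiset (k n M : ℕ) (hk : 1 ≤ k) (hn : n ≤ M ^ k) (h : Rep k n) :
    ∃ X : Multiset ℕ, Multiset.card X = 2 * k + 1 ∧ (∀ x ∈ X, x ≤ M) ∧
      (X.map (fun x => x ^ k)).sum = n := by
  obtain ⟨s, hs, x, -, hx⟩ := h
  refine ⟨(Finset.univ.val.map x) + Multiset.replicate (2 * k + 1 - s) 0, ?_, ?_, ?_⟩
  · simp; omega
  · intro y hy
    rcases Multiset.mem_add.1 hy with hy | hy
    · obtain ⟨i, -, rfl⟩ := Multiset.mem_map.1 hy
      have h1 : x i ^ k ≤ n := by
        rw [← hx]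
        exact Finset.single_le_sum (f := fun i => x i ^ k) (fun _ _ => Nat.zero_le _)
          (Finset.mem_univ i)
      exact (Nat.pow_le_pow_iff_left (by omega)).1 (h1.trans hn)
    · rw [Multiset.eq_of_mem_replicate hy]; exact Nat.zero_le _
  · rw [Multiset.map_add, Multiset.sum_add, Multiset.map_map, Multiset.map_replicate,
      Multiset.sum_replicate]
    rw [zero_pow (by omega), smul_zero, add_zero]
    exact hx

lemma exists_param (k p n M : ℕ) (hk : 1 ≤ k) (hp : p.Prime) (hd : (p - 1) ∣ k)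
    (hn : n ≤ M ^ k) (hmod : n ≡ 2 * k + 2 [MOD p]) (h : Rep k n) :
    ∃ A B : Multiset ℕ, Multiset.card A = p - 1 ∧ Multiset.card B = 2 * k + 2 - p ∧
      (∀ a ∈ A, a ≤ M / p) ∧ (∀ b ∈ B, b ≤ M) ∧ F k p A B = n := by
  obtain ⟨X, hc, hM, hX⟩ := exists_multiset k n M hk hn h
  have hp1 := hp.one_lt
  have hmod' := sum_pow_mod p k hp hk hd X
  rw [hX, hc] at hmod'
  -- number of multiples
  set j := Multiset.card (X.filter (fun x => p ∣ x)) with hj
  have h1 : j + 1 ≡ 0 [MOD p] := by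
    have h2 : n + (j + 1) ≡ n + 0 [MOD p] := by
      have h3 : n + j + 1 ≡ 2 * k + 1 + 1 [MOD p] := hmod'.add_right 1
      rw [add_zero, ← add_assoc]
      exact h3.trans hmod.symm
    exact Nat.ModEq.add_left_cancel' n h2
  have h4 : p ∣ j + 1 := (Nat.modEq_zero_iff_dvd).1 h1
  have h5 : p - 1 ≤ j := by
    have := Nat.le_of_dvd (Nat.succ_pos _) h4
    omega
  have h6 : 0 < Multiset.card ((X.filter (fun x => p ∣ x)).powersetCard (p - 1)) := by
    rw [Multiset.card_powersetCard]
    exact Nat.choose_pos h5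
  obtain ⟨A0, hA0⟩ := Multiset.card_pos_iff_exists_mem.1 h6
  obtain ⟨hA1, hA2⟩ := Multiset.mem_powersetCard.1 hA0
  have hA3 : A0 ≤ X := hA1.trans (Multiset.filter_le _ _)
  obtain ⟨B, rfl⟩ := Multiset.le_iff_exists_add.1 hA3
  refine ⟨A0.map (fun x => x / p), B, by simpa using hA2, ?_, ?_, ?_, ?_⟩
  · rw [Multiset.card_add] at hc; omega
  · intro a ha
    obtain ⟨x, hx, rfl⟩ := Multiset.mem_map.1 ha
    exact Nat.div_le_div_right (hM x (Multiset.mem_add.2 (Or.inl hx)))
  · intro b hb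
    exact hM b (Multiset.mem_add.2 (Or.inr hb))
  · rw [F, ← hX, Multiset.map_add, Multiset.sum_add, Multiset.map_map]
    congr 1
    congr 1
    apply Multiset.map_congr rfl
    intro x hx
    have : p ∣ x := (Multiset.mem_filter.1 (Multiset.mem_of_le hA1 hx)).2
    simp only [Function.comp]
    rw [Nat.mul_div_cancel' this]

/-- underlying multiset of naturals -/
def toM {M n : ℕ} (S : Sym (Fin (M + 1)) n) : Multiset ℕ :=
  Multiset.map (fun i : Fin (M + 1) => (i : ℕ)) S.1

/-- lift a bounded multiset of naturals to `Sym (Fin (M+1)) n` -/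
lemma exists_sym (A : Multiset ℕ) (n M : ℕ) (hA : Multiset.card A = n) (hM : ∀ a ∈ A, a ≤ M) :
    ∃ S : Sym (Fin (M + 1)) n, toM S = A := by
  refine ⟨⟨A.map (fun a => Fin.ofNat (M + 1) a), by simpa using hA⟩, ?_⟩
  unfold toM
  rw [Multiset.map_map]
  conv_rhs => rw [← Multiset.map_id' A]
  apply Multiset.map_congr rfl
  intro a ha
  simp only [Fin.ofNat, Function.comp]
  exact Nat.mod_eq_of_lt (Nat.lt_succ_of_le (hM a ha))

theorem ncard_le (k p M : ℕ) (hk : 1 ≤ k) (hp : p.Prime) (hd : (p - 1) ∣ k) :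
    Set.ncard {n : ℕ | n ≤ M ^ k ∧ n ≡ 2 * k + 2 [MOD p] ∧ Rep k n} ≤
      (M / p + (p - 1)).choose (p - 1) * (M + (2 * k + 2 - p)).choose (2 * k + 2 - p) := by
  classical
  set G : Sym (Fin (M / p + 1)) (p - 1) × Sym (Fin (M + 1)) (2 * k + 2 - p) → ℕ :=
    fun Q => F k p (toM Q.1) (toM Q.2) with hG
  have hsub : {n : ℕ | n ≤ M ^ k ∧ n ≡ 2 * k + 2 [MOD p] ∧ Rep k n} ⊆ Set.range G := by
    rintro n ⟨h1, h2, h3⟩
    obtain ⟨A, B, hA, hB, hA', hB', hF⟩ := exists_param k p n M hk hp hd h1 h2 h3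
    obtain ⟨S, hS⟩ := exists_sym A _ _ hA hA'
    obtain ⟨T, hT⟩ := exists_sym B _ _ hB hB'
    refine ⟨(S, T), ?_⟩
    simp only [hG, hS, hT, hF]
  refine (Set.ncard_le_ncard hsub (Set.finite_range G)).trans ?_
  rw [← Set.image_univ]
  refine (Set.ncard_image_le Set.finite_univ).trans ?_
  rw [Set.ncard_univ, Nat.card_eq_fintype_card, Fintype.card_prod,
    Sym.card_sym_eq_choose, Sym.card_sym_eq_choose, Fintype.card_fin, Fintype.card_fin]
  apply le_of_eq
  have hp1 := hp.one_lt
  have hpk : p - 1 ≤ k := Nat.le_of_dvd (by omega) hd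
  have e1 : M / p + 1 + (p - 1) - 1 = M / p + (p - 1) := by
    generalize M / p = c
    omega
  have e2 : M + 1 + (2 * k + 2 - p) - 1 = M + (2 * k + 2 - p) := by omega
  rw [e1, e2]

end H15.War
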