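import Mathlib
import Pool.Agent.H15.War.Count

set_option autoImplicit false

namespace H15.War

lemma self_pow_le (n : ℕ) : n ^ n ≤ 3 ^ n * n.factorial := by
  have h := Real.pow_div_factorial_le_exp (n : ℝ) (Nat.cast_nonneg n) n
  have hf : (0 : ℝ) < (n.factorial : ℝ) := by exact_mod_cast n.factorial_pos
  rw [div_le_iff₀ hf] at h
  have h2 : Real.exp (n : ℝ) ≤ 3 ^ n := by
    rw [← Real.exp_one_pow n]
    exact pow_le_pow_left₀ (Real.exp_pos 1).le (by linarith [Real.exp_one_lt_d9]) n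
  have h3 : (n : ℝ) ^ n ≤ 3 ^ n * (n.factorial : ℝ) :=
    h.trans (mul_le_mul_of_nonneg_right h2 hf.le)
  exact_mod_cast h3

lemma choose_mul_le (a n : ℕ) : a.choose n * n ^ n ≤ (3 * a) ^ n := by
  have h1 : a.choose n * n.factorial ≤ a ^ n := by
    rw [mul_comm, ← Nat.descFactorial_eq_factorial_mul_choose]
    exact Nat.descFactorial_le_pow a n
  calc a.choose n * n ^ n ≤ a.choose n * (3 ^ n * n.factorial) :=
        Nat.mul_le_mul_left _ (self_pow_le n)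
    _ = 3 ^ n * (a.choose n * n.factorial) := by ring
    _ ≤ 3 ^ n * a ^ n := Nat.mul_le_mul_left _ h1
    _ = (3 * a) ^ n := by rw [mul_pow]

lemma T1_le (k p M : ℕ) (hk : 1 ≤ k) (hp : p.Prime) (hd : (p - 1) ∣ k) (hM : p * k ≤ M) :
    p ^ (p - 1) * k ^ (p - 1) * (M / p + (p - 1)).choose (p - 1) ≤ 2 ^ k * (6 * M) ^ (p - 1) := by
  have hp1 := hp.one_lt
  set q := p - 1 with hq
  obtain ⟨m, hm⟩ := hd
  have hqk : q ≤ k := Nat.le_of_dvd (by omega) ⟨m, hm⟩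
  have h1 : k ^ q ≤ 2 ^ k * q ^ q := by
    have : m ^ q ≤ (2 ^ m) ^ q := Nat.pow_le_pow_left (Nat.lt_two_pow_self).le q
    calc k ^ q = m ^ q * q ^ q := by rw [hm, mul_pow, mul_comm]
      _ ≤ (2 ^ m) ^ q * q ^ q := Nat.mul_le_mul_right _ this
      _ = 2 ^ k * q ^ q := by rw [← pow_mul, hm, mul_comm m q]
  have h2 : p * (M / p + q) ≤ 2 * M := by
    have a1 : p * (M / p) ≤ M := Nat.mul_div_le M p
    have a2 : p * q ≤ p * k := Nat.mul_le_mul_left _ hqk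
    rw [mul_add]
    omega
  calc p ^ q * k ^ q * (M / p + q).choose q
      ≤ p ^ q * (2 ^ k * q ^ q) * (M / p + q).choose q :=
        Nat.mul_le_mul_right _ (Nat.mul_le_mul_left _ h1)
    _ = 2 ^ k * (p ^ q * ((M / p + q).choose q * q ^ q)) := by ring
    _ ≤ 2 ^ k * (p ^ q * (3 * (M / p + q)) ^ q) :=
        Nat.mul_le_mul_left _ (Nat.mul_le_mul_left _ (choose_mul_le _ _))
    _ = 2 ^ k * (3 * (p * (M / p + q))) ^ q := by rw [← mul_pow]; ring_nf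
    _ ≤ 2 ^ k * (6 * M) ^ q :=
        Nat.mul_le_mul_left _ (Nat.pow_le_pow_left (by omega) q)

lemma T2_le (k p M : ℕ) (hk : 1 ≤ k) (hp : p.Prime) (hd : (p - 1) ∣ k) (hM : p * k ≤ M) :
    k ^ (2 * k + 2 - p) * (M + (2 * k + 2 - p)).choose (2 * k + 2 - p) ≤
      (6 * M) ^ (2 * k + 2 - p) := by
  have hp1 := hp.one_lt
  have hqk : p - 1 ≤ k := Nat.le_of_dvd (by omega) hd
  set s := 2 * k + 2 - p with hs
  have hks : k ≤ s := by omega
  have hsM : s ≤ M := by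
    have : 2 * k ≤ p * k := Nat.mul_le_mul_right _ hp1
    omega
  calc k ^ s * (M + s).choose s ≤ s ^ s * (M + s).choose s :=
        Nat.mul_le_mul_right _ (Nat.pow_le_pow_left hks s)
    _ = (M + s).choose s * s ^ s := by ring
    _ ≤ (3 * (M + s)) ^ s := choose_mul_le _ _
    _ ≤ (6 * M) ^ s := Nat.pow_le_pow_left (by omega) s

lemma cube_le (k : ℕ) : 2 * k ^ 3 ≤ 25 * 2 ^ k := by
  rcases Nat.lt_or_ge k 5 with h | h
  · interval_cases k <;> norm_num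
  · induction k, h using Nat.le_induction with
    | base => norm_num
    | succ n hn ih =>
      rw [pow_succ 2 n]
      have : (n + 1) ^ 3 ≤ 2 * n ^ 3 := by nlinarith [sq_nonneg n, Nat.pow_le_pow_left hn 2]
      omega

lemma final_ineq (k p M : ℕ) (hk : 1 ≤ k) (hp : p.Prime) (hd : (p - 1) ∣ k)
    (hc : (300 * M) ^ k ≤ k ^ (2 * k) * p ^ (p - 1)) :
    144 ^ k * (6 * p * M) ≤ 300 ^ k * k := by
  have hp1 := hp.one_lt
  have hqk : p - 1 ≤ k := Nat.le_of_dvd (by omega) hd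
  have h1 : 300 * M ≤ k ^ 2 * p := by
    have : (300 * M) ^ k ≤ (k ^ 2 * p) ^ k := by
      refine hc.trans ?_
      rw [mul_pow, ← pow_mul]
      exact Nat.mul_le_mul_left _ (Nat.pow_le_pow_right (by omega) hqk)
    exact (Nat.pow_le_pow_iff_left (by omega)).1 this
  have h2 : p ≤ 2 * k := by omega
  have h3 : 144 ^ k * (2 * k ^ 3) ≤ 25 * 300 ^ k := by
    calc 144 ^ k * (2 * k ^ 3) ≤ 144 ^ k * (25 * 2 ^ k) := Nat.mul_le_mul_left _ (cube_le k)
      _ = 25 * 288 ^ k := by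
        rw [show (288 : ℕ) = 144 * 2 by norm_num, mul_pow]; ring
      _ ≤ 25 * 300 ^ k := Nat.mul_le_mul_left _ (Nat.pow_le_pow_left (by norm_num) k)
  have h4 : 300 * (144 ^ k * (6 * p * M)) ≤ 300 * (300 ^ k * k) := by
    calc 300 * (144 ^ k * (6 * p * M)) = 144 ^ k * (6 * p * (300 * M)) := by ring
      _ ≤ 144 ^ k * (6 * p * (k ^ 2 * p)) :=
        Nat.mul_le_mul_left _ (Nat.mul_le_mul_left _ h1)
      _ = 144 ^ k * (6 * k ^ 2 * (p * p)) := by ring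
      _ ≤ 144 ^ k * (6 * k ^ 2 * ((2 * k) * (2 * k))) :=
        Nat.mul_le_mul_left _ (Nat.mul_le_mul_left _ (Nat.mul_le_mul h2 h2))
      _ = 12 * k * (144 ^ k * (2 * k ^ 3)) := by ring
      _ ≤ 12 * k * (25 * 300 ^ k) := Nat.mul_le_mul_left _ h3
      _ = 300 * (300 ^ k * k) := by ring
  exact Nat.le_of_mul_le_mul_left h4 (by norm_num)

theorem threshold (k p M : ℕ) (hk : 1 ≤ k) (hp : p.Prime) (hd : (p - 1) ∣ k) (hM : p * k ≤ M)
    (hc : (300 * M) ^ k ≤ k ^ (2 * k) * p ^ (p - 1)) :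
    2 ^ k * p * Set.ncard {n : ℕ | n ≤ M ^ k ∧ n ≡ 2 * k + 2 [MOD p] ∧ Rep k n} ≤ M ^ k := by
  have hp1 := hp.one_lt
  have hqk : p - 1 ≤ k := Nat.le_of_dvd (by omega) hd
  have hN := ncard_le k p M hk hp hd
  set N := Set.ncard {n : ℕ | n ≤ M ^ k ∧ n ≡ 2 * k + 2 [MOD p] ∧ Rep k n} with hNdef
  have hT1 := T1_le k p M hk hp hd hM
  have hT2 := T2_le k p M hk hp hd hM
  set T1 := (M / p + (p - 1)).choose (p - 1) with hT1d
  set T2 := (M + (2 * k + 2 - p)).choose (2 * k + 2 - p) with hT2d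
  have hsum : (p - 1) + (2 * k + 2 - p) = 2 * k + 1 := by omega
  have h12 : p ^ (p - 1) * k ^ (2 * k + 1) * (T1 * T2) ≤ 2 ^ k * (6 * M) ^ (2 * k + 1) := by
    calc p ^ (p - 1) * k ^ (2 * k + 1) * (T1 * T2)
        = (p ^ (p - 1) * k ^ (p - 1) * T1) * (k ^ (2 * k + 2 - p) * T2) := by
          rw [← hsum, pow_add]; ring
      _ ≤ (2 ^ k * (6 * M) ^ (p - 1)) * (6 * M) ^ (2 * k + 2 - p) := Nat.mul_le_mul hT1 hT2
      _ = 2 ^ k * (6 * M) ^ (2 * k + 1) := by rw [← hsum, pow_add]; ring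
  have hf := final_ineq k p M hk hp hd hc
  have hpos : 0 < 300 ^ k * (p ^ (p - 1) * k ^ (2 * k + 1)) := by positivity
  refine Nat.le_of_mul_le_mul_left ?_ hpos
  calc 300 ^ k * (p ^ (p - 1) * k ^ (2 * k + 1)) * (2 ^ k * p * N)
      ≤ 300 ^ k * (p ^ (p - 1) * k ^ (2 * k + 1)) * (2 ^ k * p * (T1 * T2)) :=
        Nat.mul_le_mul_left _ (Nat.mul_le_mul_left _ hN)
    _ = 300 ^ k * 2 ^ k * p * (p ^ (p - 1) * k ^ (2 * k + 1) * (T1 * T2)) := by ring
    _ ≤ 300 ^ k * 2 ^ k * p * (2 ^ k * (6 * M) ^ (2 * k + 1)) := Nat.mul_le_mul_left _ h12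
    _ = M ^ k * ((300 * M) ^ k * (144 ^ k * (6 * p * M))) := by
        rw [show (144 : ℕ) = 2 * 2 * (6 * 6) by norm_num, mul_pow 300 M]
        simp only [mul_pow, pow_add, pow_mul', pow_two, pow_one]
        ring
    _ ≤ M ^ k * ((k ^ (2 * k) * p ^ (p - 1)) * (300 ^ k * k)) :=
        Nat.mul_le_mul_left _ (Nat.mul_le_mul hc hf)
    _ = 300 ^ k * (p ^ (p - 1) * k ^ (2 * k + 1)) * M ^ k := by rw [pow_succ]; ring

end H15.War
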