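import Mathlib
import Pool.Agent.H15.War.Estimate

set_option autoImplicit false

namespace Pool.Agent.Results.MP_efcac8_nt.Threshold

/-- Lower bound for the threshold in Hardy and Littlewood's `G(k) ≤ 2k+1`: if `p` is a prime with
`p - 1 ∣ k`, then up to `M ^ k`, for every `M ≥ pk` with `(300 M)^k ≤ k^(2k) p^(p-1)`, at most a
proportion `2^(-k)` of the numbers `n ≡ 2k+2 (mod p)` is a sum of at most `2k+1` positive
`k`-th powers. -/
theorem result :
    ∀ k p M : ℕ, 1 ≤ k → p.Prime → (p - 1) ∣ k → p * k ≤ M →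
      (300 * M) ^ k ≤ k ^ (2 * k) * p ^ (p - 1) →
      2 ^ k * p * Set.ncard {n : ℕ | n ≤ M ^ k ∧ n ≡ 2 * k + 2 [MOD p] ∧
        ∃ s : ℕ, s ≤ 2 * k + 1 ∧ ∃ x : Fin s → ℕ, (∀ i, 0 < x i) ∧ (∑ i, x i ^ k) = n}
        ≤ M ^ k :=
  fun k p M hk hp hd hM hc => H15.War.threshold k p M hk hp hd hM hc

end Pool.Agent.Results.MP_efcac8_nt.Threshold
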